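import Pool.Agent.Run7.h341.CTF.Base

/-!
# `CT_P(ℤ)` is finitely presented (MP_02e21a_al, project of helper341): piece CONN

`statConn`: for `N` large, the part of rank at most `N` of the split / merge complex of frames is
connected.
-/

set_option autoImplicit false

noncomputable section

open scoped Classical

namespace Pool.Agent.Run7.h341.CTF

open Equiv

variable {S : Finset ℕ}

namespace Conn

/-! ### global connectedness -/

/-- invariance under all splits -/
def Inv (S : Finset ℕ) (C : V → Prop) : Prop :=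
  ∀ (v : V) (f : ℤ → ℤ) (p : ℕ), Frame S v → f ∈ v → p ∈ S → (C v ↔ C (split v f p))

/-- `m`-fold splitting gives frames and does not change `C` -/
def P (S : Finset ℕ) (C : V → Prop) (m : ℕ) : Prop :=
  ∀ (v : V) (f : ℤ → ℤ), Frame S v → f ∈ v → Frame S (split v f m) ∧ (C v ↔ C (split v f m))

theorem mult {C : V → Prop} {v : V} (hv : Frame S v) (k : (ℤ → ℤ) → ℕ) :
    ∀ A : V, A ⊆ v → (∀ f ∈ A, P S C (k f)) →
      Frame S ((v \ A) ∪ A.biUnion (fun f => ch f (k f))) ∧
        (C v ↔ C ((v \ A) ∪ A.biUnion (fun f => ch f (k f)))) := by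
  intro A
  induction A using Finset.induction_on with
  | empty =>
    intro _ _
    simpa using hv
  | insert f A hfA ih =>
    intro hA hP
    have hfv : f ∈ v := hA (Finset.mem_insert_self f A)
    obtain ⟨h1, h2⟩ := ih (fun x hx => hA (Finset.mem_insert_of_mem hx))
      (fun x hx => hP x (Finset.mem_insert_of_mem hx))
    have hf1 : f ∈ (v \ A) ∪ A.biUnion (fun f => ch f (k f)) := by
      simp [hfv, hfA]
    obtain ⟨h3, h4⟩ := hP f (Finset.mem_insert_self f A) _ f h1 hf1
    have hnot : f ∉ A.biUnion (fun f => ch f (k f)) := by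
      intro h
      obtain ⟨g, hg, hfg⟩ := Finset.mem_biUnion.1 h
      obtain ⟨x, hx⟩ := val_of_mem_ch hfg 0
      have := hv.dis g (hA (Finset.mem_insert_of_mem hg)) f hfv x 0 hx
      exact hfA (this ▸ hg)
    have e : split ((v \ A) ∪ A.biUnion (fun f => ch f (k f))) f (k f) =
        (v \ insert f A) ∪ (insert f A).biUnion (fun f => ch f (k f)) := by
      ext x
      simp only [mem_split, Finset.mem_union, Finset.mem_sdiff, Finset.mem_insert,
        Finset.mem_biUnion, not_or]
      simp only [Finset.mem_biUnion, not_exists, not_and] at hnot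
      constructor
      · rintro (⟨h | ⟨g, hg, hx⟩, hne⟩ | h)
        · exact Or.inl ⟨h.1, hne, h.2⟩
        · exact Or.inr ⟨g, Or.inr hg, hx⟩
        · exact Or.inr ⟨f, Or.inl rfl, h⟩
      · rintro (⟨h, hne, h'⟩ | ⟨g, hg | hg, hx⟩)
        · exact Or.inl ⟨Or.inl ⟨h, h'⟩, hne⟩
        · subst hg
          exact Or.inr hx
        · refine Or.inl ⟨Or.inr ⟨g, hg, hx⟩, ?_⟩
          intro hxf
          subst hxf
          exact hnot g hg hx
    rw [e] at h3 h4
    exact ⟨h3, h2.trans h4⟩

theorem ch_mul (f : ℤ → ℤ) (p m : ℕ) : ch f (p * m) = (ch f p).biUnion (fun a => ch a m) := by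
  ext x
  simp only [mem_ch, Finset.mem_biUnion]
  constructor
  · rintro ⟨j, hj, rfl⟩
    have hp : 0 < p := by
      rcases Nat.eq_zero_or_pos p with h | h
      · subst h; simp at hj
      · exact h
    refine ⟨f ∘ cn (p : ℤ) ((j % p : ℕ) : ℤ), ⟨j % p, Nat.mod_lt _ hp, rfl⟩, j / p,
      Nat.div_lt_of_lt_mul hj, ?_⟩
    rw [Function.comp_assoc, cn_comp]
    have h2 := Nat.mod_add_div j p
    have e : cn ((p : ℤ) * (m : ℤ)) (((j % p : ℕ) : ℤ) + (p : ℤ) * ((j / p : ℕ) : ℤ)) =
        cn ((p * m : ℕ) : ℤ) (j : ℤ) := by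
      rw [cn_eq_iff]
      exact ⟨by push_cast; ring, by exact_mod_cast h2⟩
    rw [e]
  · rintro ⟨a, ⟨i, hi, rfl⟩, j, hj, rfl⟩
    refine ⟨i + p * j, ?_, ?_⟩
    · calc i + p * j < p + p * j := by omega
        _ = p * (j + 1) := by ring
        _ ≤ p * m := Nat.mul_le_mul_left _ hj
    · rw [Function.comp_assoc, cn_comp]
      have e : cn ((p * m : ℕ) : ℤ) ((i + p * j : ℕ) : ℤ) =
          cn ((p : ℤ) * (m : ℤ)) ((i : ℤ) + (p : ℤ) * (j : ℤ)) := by
        rw [cn_eq_iff]
        exact ⟨by push_cast; ring, by push_cast; ring⟩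
      rw [e]

theorem P_of_smooth (hS : PS S) {C : V → Prop} (hC : Inv S C) {m : ℤ} (hm : Sm S m) :
    P S C m.toNat := by
  refine Sm.ind (S := S) (P := fun m => P S C m.toNat) ?_ ?_ hm
  · intro v f hv hf
    have e : split v f (1 : ℤ).toNat = v := by
      ext x
      simp only [mem_split, mem_ch]
      constructor
      · rintro (h | ⟨j, hj, rfl⟩)
        · exact h.1
        · have : j = 0 := by simpa using hj
          subst this
          have : f ∘ cn ((1 : ℤ).toNat : ℤ) ((0 : ℕ) : ℤ) = f := by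
            have : cn ((1 : ℤ).toNat : ℤ) ((0 : ℕ) : ℤ) = id := by
              simpa using cn_one
            rw [this]; rfl
          rw [this]; exact hf
      · intro h
        by_cases hx : x = f
        · refine Or.inr ⟨0, by simp, ?_⟩
          have : cn ((1 : ℤ).toNat : ℤ) ((0 : ℕ) : ℤ) = id := by
            simpa using cn_one
          rw [this, hx]; rfl
        · exact Or.inl ⟨h, hx⟩
    rw [e]
    exact ⟨hv, Iff.rfl⟩
  · intro p m hp hsm ih v f hv hf
    have e1 : ((p : ℤ) * m).toNat = p * m.toNat := by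
      have hm0 : 0 ≤ m := hsm.1.le
      obtain ⟨n, rfl⟩ := Int.eq_ofNat_of_zero_le hm0
      rw [← Nat.cast_mul, Int.toNat_natCast, Int.toNat_natCast]
    rw [e1]
    have hv1 := frame_split hS hv hf hp
    obtain ⟨h1, h2⟩ := mult (C := C) hv1 (fun _ => m.toNat) (ch f p) ch_sub_split
      (fun _ _ => ih)
    have e : (split v f p \ ch f p) ∪ (ch f p).biUnion (fun a => ch a m.toNat) =
        split v f (p * m.toNat) := by
      rw [← ch_mul]
      have hd := disj_ch hS hv hf hp
      ext x
      simp only [Finset.mem_union, Finset.mem_sdiff, mem_split]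
      constructor
      · rintro (⟨h | h, h'⟩ | h)
        · exact Or.inl h
        · exact absurd h h'
        · exact Or.inr h
      · rintro (h | h)
        · exact Or.inl ⟨Or.inl h, fun h' => Finset.disjoint_left.1 hd h.1 h'⟩
        · exact Or.inr h
    rw [e] at h1 h2
    exact ⟨h1, (hC v f p hv hf hp).trans h2⟩

/-- if `f` is canonical on the classes mod `M` then also on the classes mod `M k` -/
theorem cone_mul {f : ℤ → ℤ} {M k : ℤ} (hM : Sm S M) (hk : Sm S k)
    (h : ∀ i : ℤ, 0 ≤ i → i < M → IsCone S (f ∘ cn M i)) :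
    ∀ i : ℤ, 0 ≤ i → i < M * k → IsCone S (f ∘ cn (M * k) i) := by
  intro i h0 h1
  have hM0 := hM.1
  have hk0 := hk.1
  have e : cn (M * k) i = cn M (i % M) ∘ cn k (i / M) := by
    rw [cn_comp, cn_eq_iff]
    exact ⟨rfl, (Int.emod_add_mul_ediv i M).symm⟩
  rw [e, ← Function.comp_assoc]
  obtain ⟨m, r, hm, hr0, hr1, hf⟩ := h (i % M) (Int.emod_nonneg _ hM0.ne') (Int.emod_lt_of_pos _ hM0)
  rw [hf, cn_comp]
  have hd0 : 0 ≤ i / M := Int.ediv_nonneg h0 hM0.le
  have hd1 : i / M < k := Int.ediv_lt_of_lt_mul hM0 (by rwa [mul_comm] at h1)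
  refine ⟨m * k, r + m * (i / M), hm.mul hk, ?_, ?_, rfl⟩
  · have := mul_nonneg hm.1.le hd0
    omega
  · have h2 : m * (i / M) + m ≤ m * k := by
      have : i / M + 1 ≤ k := by omega
      have := mul_le_mul_of_nonneg_left this hm.1.le
      linarith
    omega

/-- a common modulus for a finite set of piecewise canonical injections -/
theorem common (v : V) (h : ∀ f ∈ v, PC S f) :
    ∃ M : ℤ, Sm S M ∧ ∀ f ∈ v, ∀ i : ℤ, 0 ≤ i → i < M → IsCone S (f ∘ cn M i) := by
  induction v using Finset.induction_on with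
  | empty => exact ⟨1, Sm.one, by simp⟩
  | insert f v _ ih =>
    obtain ⟨M, hM, h1⟩ := ih (fun g hg => h g (Finset.mem_insert_of_mem hg))
    obtain ⟨-, K, hK, h2⟩ := h f (Finset.mem_insert_self f v)
    refine ⟨M * K, hM.mul hK, ?_⟩
    intro g hg
    rcases Finset.mem_insert.1 hg with rfl | hg
    · rw [mul_comm]
      exact cone_mul hK hM h2
    · exact cone_mul hM hK (h1 g hg)

/-- a common multiple of the moduli of a finite set of cones -/
theorem common' (v : V) (h : ∀ f ∈ v, IsCone S f) :
    ∃ K : ℤ, Sm S K ∧ ∀ f ∈ v, ∃ m r n : ℤ, Sm S m ∧ Sm S n ∧ 0 ≤ r ∧ r < m ∧ f = cn m r ∧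
      m * n = K := by
  induction v using Finset.induction_on with
  | empty => exact ⟨1, Sm.one, by simp⟩
  | insert f v _ ih =>
    obtain ⟨K, hK, h1⟩ := ih (fun g hg => h g (Finset.mem_insert_of_mem hg))
    obtain ⟨m, r, hm, hr0, hr1, hf⟩ := h f (Finset.mem_insert_self f v)
    refine ⟨m * K, hm.mul hK, ?_⟩
    intro g hg
    rcases Finset.mem_insert.1 hg with rfl | hg
    · exact ⟨m, r, K, hm, hK, hr0, hr1, hf, rfl⟩
    · obtain ⟨m', r', n', hm', hn', h0', h1', hf', hmn⟩ := h1 g hg
      refine ⟨m', r', m * n', hm', hm.mul hn', h0', h1', hf', ?_⟩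
      rw [← hmn]; ring

theorem toNat_cast {m : ℤ} (hm : Sm S m) : ((m.toNat : ℕ) : ℤ) = m :=
  Int.toNat_of_nonneg hm.1.le

/-- a frame of cones is joined to `{id}` -/
theorem cones (hS : PS S) {C : V → Prop} (hC : Inv S C) {v : V} (hv : Frame S v)
    (h : ∀ f ∈ v, IsCone S f) : C v ↔ C {id} := by
  obtain ⟨K, hK, hKv⟩ := common' v h
  choose! m r n hm hn hr0 hr1 hf hmn using hKv
  have e : (v \ v) ∪ v.biUnion (fun f => ch f (n f).toNat) = split {id} id K.toNat := by
    ext x
    simp only [sdiff_self, Finset.bot_eq_empty, Finset.mem_union, Finset.notMem_empty, false_or,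
      Finset.mem_biUnion, mem_split, Finset.mem_singleton, mem_ch]
    constructor
    · rintro ⟨f, hfv, j, hj, rfl⟩
      right
      have hj' : (j : ℤ) < n f := by
        have := toNat_cast (hn f hfv)
        omega
      have hm0 := (hm f hfv).1
      have h0 : 0 ≤ r f + m f * (j : ℤ) := by
        have := mul_nonneg hm0.le (Int.natCast_nonneg j)
        have := hr0 f hfv
        omega
      have h1 : r f + m f * (j : ℤ) < K := by
        have h2 : (j : ℤ) + 1 ≤ n f := by omega
        have h3 := mul_le_mul_of_nonneg_left h2 hm0.le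
        rw [hmn f hfv] at h3
        have := hr1 f hfv
        linarith
      refine ⟨(r f + m f * (j : ℤ)).toNat, ?_, ?_⟩
      · have := toNat_cast hK
        omega
      · rw [toNat_cast hK, Int.toNat_of_nonneg h0, toNat_cast (hn f hfv)]
        have e : f ∘ cn (n f) (j : ℤ) = cn K (r f + m f * (j : ℤ)) := by
          have := congrArg (fun g => g ∘ cn (n f) (j : ℤ)) (hf f hfv)
          simp only [cn_comp, hmn f hfv] at this
          exact this
        rw [e]
        rfl
    · rintro (⟨h1, h2⟩ | ⟨s, hs, rfl⟩)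
      · exact absurd h1 h2
      · obtain ⟨f, hfv, y, hy⟩ := hv.cov (s : ℤ)
        have hsK : (s : ℤ) < K := by
          have := toNat_cast hK
          omega
        have hm0 := (hm f hfv).1
        have hy' : r f + m f * y = s := by
          rw [← hy]
          exact (congrFun (hf f hfv) y).symm
        have hy0 : 0 ≤ y := by
          by_contra hneg
          have : y + 1 ≤ 0 := by omega
          have h3 := mul_le_mul_of_nonneg_left this hm0.le
          have := hr1 f hfv
          have : (0 : ℤ) ≤ s := Int.natCast_nonneg s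
          linarith
        have hy1 : y < n f := by
          by_contra hneg
          have : n f ≤ y := by omega
          have h3 := mul_le_mul_of_nonneg_left this hm0.le
          rw [hmn f hfv] at h3
          have := hr0 f hfv
          linarith
        refine ⟨f, hfv, y.toNat, ?_, ?_⟩
        · omega
        · rw [toNat_cast hK, Int.toNat_of_nonneg hy0, toNat_cast (hn f hfv)]
          have e : f ∘ cn (n f) y = cn K (s : ℤ) := by
            have := congrArg (fun g => g ∘ cn (n f) y) (hf f hfv)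
            simp only [cn_comp, hmn f hfv, hy'] at this
            exact this
          rw [e]
          rfl
  obtain ⟨-, h1⟩ := mult (C := C) hv (fun f => (n f).toNat) v (Finset.Subset.refl v)
    (fun f hfv => P_of_smooth hS hC (hn f hfv))
  rw [e] at h1
  exact h1.trans (P_of_smooth hS hC hK {id} id frame_id (Finset.mem_singleton_self id)).2.symm

/-- **all frames are joined to `{id}`** -/
theorem global (hS : PS S) {C : V → Prop} (hC : Inv S C) {v : V} (hv : Frame S v) :
    C v ↔ C {id} := by
  obtain ⟨M, hM, h1⟩ := common v hv.pc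
  obtain ⟨h2, h3⟩ := mult (C := C) hv (fun _ => M.toNat) v (Finset.Subset.refl v)
    (fun f _ => P_of_smooth hS hC hM)
  refine h3.trans (cones hS hC h2 ?_)
  intro x hx
  simp only [sdiff_self, Finset.bot_eq_empty, Finset.mem_union, Finset.notMem_empty, false_or,
    Finset.mem_biUnion, mem_ch] at hx
  obtain ⟨f, hf, j, hj, rfl⟩ := hx
  rw [toNat_cast hM]
  refine h1 f hf j (Int.natCast_nonneg j) ?_
  have := toNat_cast hM
  omega

/-! ### extension to higher rank -/

/-- invariance up to rank `N` -/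
def InvN (S : Finset ℕ) (N : ℕ) (C : V → Prop) : Prop :=
  ∀ (v : V) (f : ℤ → ℤ) (p : ℕ), Frame S v → f ∈ v → p ∈ S → (split v f p).card ≤ N →
    (C v ↔ C (split v f p))

/-- the extension to rank `N + 1` -/
def ext (S : Finset ℕ) (N : ℕ) (C : V → Prop) : V → Prop := fun w =>
  if w.card ≤ N then C w
  else ∃ (f : ℤ → ℤ) (p : ℕ), PC S f ∧ p ∈ S ∧ ch f p ⊆ w ∧ C (mrg w f p)

theorem two_le {p : ℕ} (hS : PS S) (hp : p ∈ S) : 2 ≤ p := (hS.prime p hp).two_le

/-- two merges of a frame of rank `N + 1` have the same value -/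
theorem merges_eq (hS : PS S) {N : ℕ} (hN : 2 * S.sup id + 2 ≤ N) {C : V → Prop}
    (hC : InvN S N C) {w : V} (hw : Frame S w) (hc : w.card = N + 1) {f g : ℤ → ℤ} {p q : ℕ}
    (hf : PC S f) (hg : PC S g) (hp : p ∈ S) (hq : q ∈ S) (hfw : ch f p ⊆ w) (hgw : ch g q ⊆ w) :
    C (mrg w f p) ↔ C (mrg w g q) := by
  have hpS : p ≤ S.sup id := Finset.le_sup (f := id) hp
  have hqS : q ≤ S.sup id := Finset.le_sup (f := id) hq
  -- two elements outside the children
  have hcard : 1 < (w \ (ch f p ∪ ch g q)).card := by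
    have h1 : (ch f p ∪ ch g q).card ≤ p + q := by
      refine (Finset.card_union_le _ _).trans ?_
      rw [card_ch hf.1, card_ch hg.1]
    have h2 := Finset.le_card_sdiff (ch f p ∪ ch g q) w
    omega
  obtain ⟨a, ha, b, hb, hab⟩ := Finset.one_lt_card.1 hcard
  simp only [Finset.mem_sdiff, Finset.mem_union, not_or] at ha hb
  obtain ⟨m, hm, hmch⟩ := exists_merge hS hw ha.1 hb.1 hab
  have hmw : ch m 2 ⊆ w := by
    rw [hmch]
    intro x hx
    rcases Finset.mem_insert.1 hx with rfl | hx
    · exact ha.1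
    · rw [Finset.mem_singleton.1 hx]; exact hb.1
  have key : ∀ (f : ℤ → ℤ) (p : ℕ), PC S f → p ∈ S → ch f p ⊆ w → a ∉ ch f p → b ∉ ch f p →
      (C (mrg w f p) ↔ C (mrg w m 2)) := by
    intro f p hf hp hfw haf hbf
    have hd : Disjoint (ch f p) (ch m 2) := by
      rw [hmch, Finset.disjoint_right]
      intro x hx
      rcases Finset.mem_insert.1 hx with rfl | hx
      · exact haf
      · rw [Finset.mem_singleton.1 hx]; exact hbf
    have hp2 := two_le hS hp
    have c1 := card_mrg hS hw hf hp hfw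
    have c2 := card_mrg hS hw hm hS.two hmw
    have fr1 := frame_mrg hS hw hf hp hfw
    have fr2 := frame_mrg hS hw hm hS.two hmw
    have s1 : ch m 2 ⊆ mrg w f p := ch_sub_mrg hmw hd
    have s2 : ch f p ⊆ mrg w m 2 := ch_sub_mrg hfw hd.symm
    have e1 := split_mrg hS fr1 hm hS.two s1
    have e2 := split_mrg hS fr2 hf hp s2
    have i1 := hC (mrg (mrg w f p) m 2) m 2 (frame_mrg hS fr1 hm hS.two s1)
      (mem_mrg.2 (Or.inl rfl)) hS.two (by rw [e1]; omega)
    have i2 := hC (mrg (mrg w m 2) f p) f p (frame_mrg hS fr2 hf hp s2)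
      (mem_mrg.2 (Or.inl rfl)) hp (by rw [e2]; omega)
    rw [e1] at i1
    rw [e2] at i2
    rw [mrg_comm hS hw hf hm hp hS.two hfw hmw hd] at i1
    exact i1.symm.trans i2
  exact (key f p hf hp hfw ha.2.1 hb.2.1).trans (key g q hg hq hgw ha.2.2 hb.2.2).symm

theorem ext_inv (hS : PS S) {N : ℕ} (hN : 2 * S.sup id + 2 ≤ N) {C : V → Prop}
    (hC : InvN S N C) : InvN S (N + 1) (ext S N C) := by
  intro v f p hv hf hp hc
  have hp2 := two_le hS hp
  have hcs := card_split hS hv hf hp
  have hvN : v.card ≤ N := by omega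
  have e1 : ext S N C v ↔ C v := by simp only [ext, if_pos hvN]
  rw [e1]
  by_cases h : (split v f p).card ≤ N
  · have e2 : ext S N C (split v f p) ↔ C (split v f p) := by simp only [ext, if_pos h]
    rw [e2]
    exact hC v f p hv hf hp h
  · have e2 : ext S N C (split v f p) ↔ ∃ (g : ℤ → ℤ) (q : ℕ), PC S g ∧ q ∈ S ∧
        ch g q ⊆ split v f p ∧ C (mrg (split v f p) g q) := by simp only [ext, if_neg h]
    rw [e2]
    have em := mrg_split hS hv hf hp
    have hfr := frame_split hS hv hf hp
    constructor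
    · intro hCv
      exact ⟨f, p, hv.pc f hf, hp, ch_sub_split, by rw [em]; exact hCv⟩
    · rintro ⟨g, q, hg, hq, hgw, hCg⟩
      have := merges_eq hS hN hC hfr (by omega) (hv.pc f hf) hg hp hq ch_sub_split hgw
      rw [em] at this
      exact this.2 hCg

/-- the iterated extension -/
def D (S : Finset ℕ) (N : ℕ) (C : V → Prop) : ℕ → V → Prop
  | 0 => C
  | k + 1 => ext S (N + k) (D S N C k)

theorem D_inv (hS : PS S) {N : ℕ} (hN : 2 * S.sup id + 2 ≤ N) {C : V → Prop}
    (hC : InvN S N C) (k : ℕ) : InvN S (N + k) (D S N C k) := by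
  induction k with
  | zero => exact hC
  | succ k ih =>
    have h : 2 * S.sup id + 2 ≤ N + k := by omega
    exact ext_inv hS h ih

theorem D_stable {N : ℕ} {C : V → Prop} {w : V} {k : ℕ} (hw : w.card ≤ N + k) (j : ℕ) :
    D S N C (k + j) w ↔ D S N C k w := by
  induction j with
  | zero => exact Iff.rfl
  | succ j ih =>
    have : D S N C (k + (j + 1)) w ↔ D S N C (k + j) w := by
      show ext S (N + (k + j)) (D S N C (k + j)) w ↔ _
      simp only [ext, if_pos (show w.card ≤ N + (k + j) by omega)]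
    exact this.trans ih

theorem D_stable' {N : ℕ} {C : V → Prop} {w : V} {k l : ℕ} (hw : w.card ≤ N + k) (hkl : k ≤ l) :
    D S N C l w ↔ D S N C k w := by
  obtain ⟨j, rfl⟩ := Nat.exists_eq_add_of_le hkl
  exact D_stable hw j

end Conn

/-- **CONN** -/
theorem statConn (hS : PS S) : StatConn S := by
  refine ⟨2 * S.sup id + 2, fun N hN C hC v w hv hw hvN hwN => ?_⟩
  have hInv : Conn.Inv S (fun u => Conn.D S N C (u.card - N) u) := by
    intro u f p hu hf hp
    have hp2 := Conn.two_le hS hp
    have hcs := card_split hS hu hf hp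
    have h1 := Conn.D_inv hS hN hC ((split u f p).card - N) u f p hu hf hp (by omega)
    have h2 : Conn.D S N C ((split u f p).card - N) u ↔ Conn.D S N C (u.card - N) u :=
      Conn.D_stable' (by omega) (by omega)
    exact h2.symm.trans h1
  have h0 : ∀ u : V, u.card ≤ N → (Conn.D S N C (u.card - N) u ↔ C u) := by
    intro u hu
    rw [Nat.sub_eq_zero_of_le hu]
    exact Iff.rfl
  have h1 := Conn.global hS hInv hv
  have h2 := Conn.global hS hInv hw
  exact (h0 v hvN).symm.trans (h1.trans (h2.symm.trans (h0 w hwN)))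

end Pool.Agent.Run7.h341.CTF
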